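import Pool.Agent.H60.EP.Defs

/-!
# `S_Prob`: almost all graphs have the extension property with counts
-/

set_option autoImplicit false

open Finset
open scoped symmDiff

namespace Pool.Agent.H58.EP

open Pool.Agent.H60.EP

section count

open scoped Classical

set_option linter.unusedSectionVars false

variable {V : Type} [Fintype V] [DecidableEq V]

theorem card_graph : Fintype.card (SimpleGraph V) = 2 ^ (Fintype.card V).choose 2 := by
  rw [← SimpleGraph.card_edgeFinset_top_eq_card_choose_two, ← Finset.card_powerset]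
  refine Finset.card_bij (s := (univ : Finset (SimpleGraph V)))
    (fun G _ => G.edgeFinset) ?_ ?_ ?_
  · intro G _
    rw [mem_powerset]
    exact SimpleGraph.edgeFinset_mono le_top
  · intro G _ H _ h
    exact SimpleGraph.edgeFinset_inj.1 h
  · intro F hF
    refine ⟨SimpleGraph.fromEdgeSet (F : Set (Sym2 V)), mem_univ _, ?_⟩
    rw [mem_powerset] at hF
    ext e
    simp only [SimpleGraph.mem_edgeFinset, SimpleGraph.edgeSet_fromEdgeSet, Set.mem_sdiff, mem_coe]
    constructor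
    · exact fun h => h.1
    · intro h
      refine ⟨h, ?_⟩
      have := hF h
      rw [SimpleGraph.mem_edgeFinset] at this
      exact SimpleGraph.not_isDiag_of_mem_edgeSet _ this

/-- The graph of the pairs `v ∉ S`, `a ∈ S` with `c v a`. -/
def Hc (S : Finset V) (c : {v // v ∉ S} → ({a // a ∈ S} → Bool)) : SimpleGraph V where
  Adj u v := (∃ (hu : u ∉ S) (hv : v ∈ S), c ⟨u, hu⟩ ⟨v, hv⟩ = true) ∨
    (∃ (hv : v ∉ S) (hu : u ∈ S), c ⟨v, hv⟩ ⟨u, hu⟩ = true)
  symm := by
    refine ⟨?_⟩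
    intro u v h
    exact h.symm
  loopless := by
    refine ⟨?_⟩
    rintro v (⟨h1, h2, _⟩ | ⟨h1, h2, _⟩)
    · exact h1 h2
    · exact h1 h2

theorem adj_Hc (S : Finset V) (c : {v // v ∉ S} → ({a // a ∈ S} → Bool)) {v a : V} (hv : v ∉ S)
    (ha : a ∈ S) : (Hc S c).Adj v a ↔ c ⟨v, hv⟩ ⟨a, ha⟩ = true := by
  constructor
  · rintro (⟨h1, h2, h3⟩ | ⟨h1, h2, h3⟩)
    · exact h3
    · exact absurd h2 hv
  · intro h
    exact Or.inl ⟨hv, ha, h⟩

theorem adj_symmDiff (G H : SimpleGraph V) (v a : V) :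
    (G ∆ H).Adj v a ↔ ¬ (G.Adj v a ↔ H.Adj v a) := by
  rw [symmDiff_def, SimpleGraph.sup_adj, SimpleGraph.sdiff_adj, SimpleGraph.sdiff_adj]
  tauto

/-- The pattern which makes `v` a vertex counted by `cnt`. -/
noncomputable def x0 (G : SimpleGraph V) (A S : Finset V) (v : {v // v ∉ S}) : {a // a ∈ S} → Bool :=
  fun a => decide (¬ (G.Adj v a ↔ (a : V) ∈ A))

theorem cnt_eq (G : SimpleGraph V) (A B : Finset V) : cnt G A B =
    (univ.filter fun v => v ∉ A ∧ v ∉ B ∧ (∀ a ∈ A, G.Adj v a) ∧ ∀ b ∈ B, ¬ G.Adj v b).card := by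
  unfold cnt
  congr!

theorem cnt_symmDiff (G : SimpleGraph V) {A B : Finset V} (hAB : Disjoint A B)
    (c : {v // v ∉ A ∪ B} → ({a // a ∈ A ∪ B} → Bool)) :
    cnt (G ∆ Hc (A ∪ B) c) A B =
      (univ.filter fun v : {v // v ∉ A ∪ B} => c v = x0 G A (A ∪ B) v).card := by
  rw [cnt_eq]
  refine (Finset.card_bij (fun (v : {v // v ∉ A ∪ B}) _ => (v : V)) ?_ ?_ ?_).symm
  · rintro ⟨v, hv⟩ hc
    rw [mem_filter] at hc ⊢
    have hc2 := hc.2
    have hv' : v ∉ A ∧ v ∉ B := by simpa [not_or] using hv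
    refine ⟨mem_univ _, hv'.1, hv'.2, ?_, ?_⟩
    · intro a ha
      have haS : a ∈ A ∪ B := mem_union_left _ ha
      rw [adj_symmDiff, adj_Hc _ _ hv haS, hc2]
      simp [x0, ha]
    · intro a ha
      have haS : a ∈ A ∪ B := mem_union_right _ ha
      have haA : a ∉ A := fun h => (Finset.disjoint_left.1 hAB h) ha
      rw [adj_symmDiff, adj_Hc _ _ hv haS, hc2]
      simp [x0, haA]
  · intro v _ w _ h
    exact Subtype.ext h
  · intro v hv
    rw [mem_filter] at hv
    obtain ⟨_, h1, h2, h3, h4⟩ := hv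
    have hvS : v ∉ A ∪ B := by simp [h1, h2]
    refine ⟨⟨v, hvS⟩, ?_, rfl⟩
    rw [mem_filter]
    refine ⟨mem_univ _, ?_⟩
    funext a
    obtain ⟨a, ha⟩ := a
    rcases mem_union.1 ha with haA | haB
    · have := h3 a haA
      rw [adj_symmDiff, adj_Hc _ _ hvS ha] at this
      by_cases hg : G.Adj v a
      · have hc : ¬ (c ⟨v, hvS⟩ ⟨a, ha⟩ = true) := fun h => this ⟨fun _ => h, fun _ => hg⟩
        simp [x0, haA, hg, hc]
      · have hc : c ⟨v, hvS⟩ ⟨a, ha⟩ = true := by
          by_contra h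
          exact this ⟨fun h' => absurd h' hg, fun h' => absurd h' h⟩
        simp [x0, haA, hg, hc]
    · have haA : a ∉ A := fun h => (Finset.disjoint_left.1 hAB h) haB
      have := h4 a haB
      rw [adj_symmDiff, adj_Hc _ _ hvS ha, not_not] at this
      by_cases hg : G.Adj v a
      · have hc : c ⟨v, hvS⟩ ⟨a, ha⟩ = true := this.1 hg
        simp [x0, haA, hg, hc]
      · have hc : ¬ (c ⟨v, hvS⟩ ⟨a, ha⟩ = true) := fun h => hg (this.2 h)
        simp [x0, haA, hg, hc]

theorem sum_exp_pi {W X : Type} [Fintype W] [Fintype X] (y : W → X) (t : ℝ) :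
    ∑ c : W → X, Real.exp (-(t * ((univ.filter fun v => c v = y v).card : ℝ))) =
      ((Fintype.card X : ℝ) - 1 + Real.exp (-t)) ^ Fintype.card W := by
  have h1 : ∀ c : W → X, Real.exp (-(t * ((univ.filter fun v => c v = y v).card : ℝ))) =
      ∏ v, (if c v = y v then Real.exp (-t) else 1) := by
    intro c
    rw [Finset.prod_ite, Finset.prod_const_one, mul_one, Finset.prod_const, ← Real.exp_nat_mul]
    congr 1
    ring
  simp only [h1]
  have h2 := Finset.prod_univ_sum (fun _ : W => (univ : Finset X))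
    (fun v x => if x = y v then Real.exp (-t) else (1 : ℝ))
  rw [Fintype.piFinset_univ] at h2
  rw [← h2]
  have h3 : ∀ v : W, ∑ x : X, (if x = y v then Real.exp (-t) else (1 : ℝ)) =
      (Fintype.card X : ℝ) - 1 + Real.exp (-t) := by
    intro v
    have h4 : ∀ x : X, (if x = y v then Real.exp (-t) else (1 : ℝ)) =
        1 + (if x = y v then (Real.exp (-t) - 1) else 0) := by
      intro x; split_ifs <;> ring
    simp only [h4, Finset.sum_add_distrib, Finset.sum_ite_eq', mem_univ, if_true, sum_const,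
      card_univ, nsmul_eq_mul, mul_one]
    ring
  simp only [h3, prod_const, card_univ]

theorem sum_graph (t : ℝ) {A B : Finset V} (hAB : Disjoint A B) :
    ((2 : ℝ) ^ (A ∪ B).card) ^ (Fintype.card {v // v ∉ A ∪ B}) *
      ∑ G : SimpleGraph V, Real.exp (-(t * (cnt G A B : ℝ))) =
    Fintype.card (SimpleGraph V) *
      ((2 : ℝ) ^ (A ∪ B).card - 1 + Real.exp (-t)) ^ (Fintype.card {v // v ∉ A ∪ B}) := by
  have hX : (Fintype.card ({a // a ∈ A ∪ B} → Bool) : ℝ) = (2 : ℝ) ^ (A ∪ B).card := by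
    rw [Fintype.card_fun, Fintype.card_bool, Fintype.card_coe]
    push_cast
    rfl
  have h1 : ∑ c : {v // v ∉ A ∪ B} → ({a // a ∈ A ∪ B} → Bool), ∑ G : SimpleGraph V,
      Real.exp (-(t * (cnt (G ∆ Hc (A ∪ B) c) A B : ℝ))) =
      ((2 : ℝ) ^ (A ∪ B).card) ^ (Fintype.card {v // v ∉ A ∪ B}) *
      ∑ G : SimpleGraph V, Real.exp (-(t * (cnt G A B : ℝ))) := by
    have : ∀ c : {v // v ∉ A ∪ B} → ({a // a ∈ A ∪ B} → Bool), ∑ G : SimpleGraph V,
        Real.exp (-(t * (cnt (G ∆ Hc (A ∪ B) c) A B : ℝ))) =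
        ∑ G : SimpleGraph V, Real.exp (-(t * (cnt G A B : ℝ))) := by
      intro c
      have hinv : Function.Involutive (fun G : SimpleGraph V => G ∆ Hc (A ∪ B) c) := by
        intro G
        exact symmDiff_symmDiff_cancel_right _ _
      exact Equiv.sum_comp hinv.toPerm (fun G : SimpleGraph V => Real.exp (-(t * (cnt G A B : ℝ))))
    rw [Finset.sum_congr rfl fun c _ => this c, sum_const, nsmul_eq_mul, card_univ,
      Fintype.card_fun]
    push_cast
    rw [hX]
  rw [← h1, Finset.sum_comm]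
  have h2 : ∀ G : SimpleGraph V, ∑ c : {v // v ∉ A ∪ B} → ({a // a ∈ A ∪ B} → Bool),
      Real.exp (-(t * (cnt (G ∆ Hc (A ∪ B) c) A B : ℝ))) =
      ((2 : ℝ) ^ (A ∪ B).card - 1 + Real.exp (-t)) ^ (Fintype.card {v // v ∉ A ∪ B}) := by
    intro G
    rw [← hX]
    have h5 := sum_exp_pi (x0 G A (A ∪ B)) t
    simp only [cnt_symmDiff G hAB]
    convert h5
  have h3 := Finset.sum_congr (rfl : (univ : Finset (SimpleGraph V)) = univ) (fun G _ => h2 G)
  rw [h3, sum_const, nsmul_eq_mul, card_univ]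

/-- The number of graphs which are bad for one pair `A`, `B`. -/
theorem card_bad {ε : ℝ} (hε : 0 < ε) (hε1 : ε ≤ 1) {A B : Finset V} (hAB : Disjoint A B)
    (hk : A.card + B.card ≤ 5) :
    ((univ.filter fun G : SimpleGraph V =>
        (cnt G A B : ℝ) < ((1 / 2 : ℝ) ^ (A.card + B.card) - ε) * Fintype.card V).card : ℝ) ≤
      Fintype.card (SimpleGraph V) * Real.exp (5 - ε ^ 2 / 2 * Fintype.card V) := by
  set n : ℝ := (Fintype.card V : ℝ) with hn
  set w : ℕ := Fintype.card {v // v ∉ A ∪ B} with hw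
  set k : ℕ := A.card + B.card with hkdef
  have hcard : (A ∪ B).card = k := Finset.card_union_of_disjoint hAB
  have hwn : n - 5 ≤ (w : ℝ) := by
    have h1 : w + k = Fintype.card V := by
      have := Fintype.card_subtype_compl (fun v : V => v ∈ A ∪ B)
      have h2 : Fintype.card {v // v ∈ A ∪ B} = (A ∪ B).card := Fintype.card_coe _
      have h3 : (A ∪ B).card ≤ Fintype.card V := Finset.card_le_univ _
      rw [h2] at this
      have h4 : w = Fintype.card V - (A ∪ B).card := by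
        rw [hw, ← this]
      rw [h4, ← hcard]
      omega
    have h5 : (w : ℝ) + k = n := by
      rw [hn]
      exact_mod_cast h1
    have h6 : (k : ℝ) ≤ 5 := by exact_mod_cast hk
    linarith
  set p : ℝ := (1 / 2 : ℝ) ^ k with hp
  have hp0 : 0 < p := by positivity
  have hp1 : p ≤ 1 := pow_le_one₀ (by norm_num) (by norm_num)
  have h2p : (2 : ℝ) ^ k * p = 1 := by
    rw [hp, ← mul_pow]
    norm_num
  -- the average
  have hsum := sum_graph (V := V) ε hAB
  rw [hcard] at hsum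
  have hq : (2 : ℝ) ^ k - 1 + Real.exp (-ε) = (2 : ℝ) ^ k * (1 - p * (1 - Real.exp (-ε))) := by
    have : (2 : ℝ) ^ k * (1 - p * (1 - Real.exp (-ε))) =
        (2 : ℝ) ^ k - ((2 : ℝ) ^ k * p) * (1 - Real.exp (-ε)) := by ring
    rw [this, h2p]
    ring
  rw [hq, mul_pow] at hsum
  have h2k : (0 : ℝ) < ((2 : ℝ) ^ k) ^ w := by positivity
  have hsum' : ∑ G : SimpleGraph V, Real.exp (-(ε * (cnt G A B : ℝ))) =
      Fintype.card (SimpleGraph V) * (1 - p * (1 - Real.exp (-ε))) ^ w := by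
    have h7 : ((2 : ℝ) ^ k) ^ w * ∑ G : SimpleGraph V, Real.exp (-(ε * (cnt G A B : ℝ))) =
        ((2 : ℝ) ^ k) ^ w * (Fintype.card (SimpleGraph V) *
          (1 - p * (1 - Real.exp (-ε))) ^ w) := by
      rw [← hw] at hsum
      rw [hsum]
      ring
    exact mul_left_cancel₀ h2k.ne' h7
  have he1 : 1 - Real.exp (-ε) ≥ ε - ε ^ 2 / 2 := by
    have h8 := Real.quadratic_le_exp_of_nonneg hε.le
    have h9 : Real.exp (-ε) * Real.exp ε = 1 := by rw [← Real.exp_add]; simp
    have h10 : 0 < Real.exp (-ε) := Real.exp_pos _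
    nlinarith [mul_le_mul_of_nonneg_left h8 h10.le, sq_nonneg (ε ^ 2), sq_nonneg ε, pow_pos hε 3,
      pow_pos hε 4]
  have he0 : 0 ≤ 1 - Real.exp (-ε) := by
    have := Real.exp_le_one_iff.2 (show -ε ≤ 0 by linarith)
    linarith
  have he2 : 1 - Real.exp (-ε) ≤ 1 := by
    have := Real.exp_pos (-ε)
    linarith
  have hpow : (1 - p * (1 - Real.exp (-ε))) ^ w ≤ Real.exp (-(p * (1 - Real.exp (-ε)) * w)) := by
    have h11 : 0 ≤ 1 - p * (1 - Real.exp (-ε)) := by nlinarith
    have h12 : 1 - p * (1 - Real.exp (-ε)) ≤ Real.exp (-(p * (1 - Real.exp (-ε)))) := by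
      have := Real.add_one_le_exp (-(p * (1 - Real.exp (-ε))))
      linarith
    calc (1 - p * (1 - Real.exp (-ε))) ^ w ≤ (Real.exp (-(p * (1 - Real.exp (-ε))))) ^ w :=
          pow_le_pow_left₀ h11 h12 w
      _ = _ := by
          rw [← Real.exp_nat_mul]
          congr 1
          ring
  -- Markov
  set X : ℝ := (p - ε) * n with hX
  have hmark : ((univ.filter fun G : SimpleGraph V => (cnt G A B : ℝ) < X).card : ℝ) *
      Real.exp (-(ε * X)) ≤ ∑ G : SimpleGraph V, Real.exp (-(ε * (cnt G A B : ℝ))) := by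
    calc ((univ.filter fun G : SimpleGraph V => (cnt G A B : ℝ) < X).card : ℝ) *
        Real.exp (-(ε * X)) =
        ∑ _G ∈ univ.filter (fun G : SimpleGraph V => (cnt G A B : ℝ) < X), Real.exp (-(ε * X)) := by
          rw [sum_const, nsmul_eq_mul]
      _ ≤ ∑ G ∈ univ.filter (fun G : SimpleGraph V => (cnt G A B : ℝ) < X),
          Real.exp (-(ε * (cnt G A B : ℝ))) := by
          refine Finset.sum_le_sum fun G hG => ?_
          have hG' := (mem_filter.1 hG).2
          apply Real.exp_le_exp.2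
          nlinarith
      _ ≤ _ := Finset.sum_le_sum_of_subset_of_nonneg (filter_subset _ _)
          fun G _ _ => (Real.exp_pos _).le
  rw [hsum'] at hmark
  have hXp : 0 < Real.exp (-(ε * X)) := Real.exp_pos _
  have hfin : ((univ.filter fun G : SimpleGraph V => (cnt G A B : ℝ) < X).card : ℝ) ≤
      Fintype.card (SimpleGraph V) *
        Real.exp (ε * X - p * (1 - Real.exp (-ε)) * w) := by
    have h13 : ((univ.filter fun G : SimpleGraph V => (cnt G A B : ℝ) < X).card : ℝ) *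
        Real.exp (-(ε * X)) ≤ Fintype.card (SimpleGraph V) *
          Real.exp (-(p * (1 - Real.exp (-ε)) * w)) :=
      hmark.trans (mul_le_mul_of_nonneg_left hpow (Nat.cast_nonneg _))
    have h14 : Real.exp (-(ε * X)) * Real.exp (ε * X) = 1 := by rw [← Real.exp_add]; simp
    calc ((univ.filter fun G : SimpleGraph V => (cnt G A B : ℝ) < X).card : ℝ) =
        (((univ.filter fun G : SimpleGraph V => (cnt G A B : ℝ) < X).card : ℝ) *
          Real.exp (-(ε * X))) * Real.exp (ε * X) := by rw [mul_assoc, h14, mul_one]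
      _ ≤ (Fintype.card (SimpleGraph V) * Real.exp (-(p * (1 - Real.exp (-ε)) * w))) *
          Real.exp (ε * X) := mul_le_mul_of_nonneg_right h13 (Real.exp_pos _).le
      _ = _ := by
          rw [mul_assoc, ← Real.exp_add]
          congr 2
          ring
  refine hfin.trans (mul_le_mul_of_nonneg_left (Real.exp_le_exp.2 ?_) (Nat.cast_nonneg _))
  have hn0 : 0 ≤ n := Nat.cast_nonneg _
  have hw0 : (0 : ℝ) ≤ w := Nat.cast_nonneg _
  have a1 : 0 ≤ ε - ε ^ 2 / 2 := by nlinarith
  have a2 : p * (ε - ε ^ 2 / 2) * (n - 5) ≤ p * (1 - Real.exp (-ε)) * w := by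
    calc p * (ε - ε ^ 2 / 2) * (n - 5) ≤ p * (ε - ε ^ 2 / 2) * w :=
          mul_le_mul_of_nonneg_left hwn (mul_nonneg hp0.le a1)
      _ ≤ _ := mul_le_mul_of_nonneg_right (mul_le_mul_of_nonneg_left he1 hp0.le) hw0
  have a3 : p * (ε ^ 2 * n) ≤ 1 * (ε ^ 2 * n) := mul_le_mul_of_nonneg_right hp1 (by positivity)
  have a4 : p * (ε - ε ^ 2 / 2) ≤ 1 := by nlinarith
  rw [hX]
  nlinarith

theorem card_small (n : ℕ) :
    ((univ.filter fun A : Finset (Fin n) => A.card ≤ 5).card : ℝ) ≤ 6 * ((n : ℝ) + 1) ^ 5 := by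
  have h1 : (univ.filter fun A : Finset (Fin n) => A.card ≤ 5) ⊆
      (range 6).biUnion fun i => powersetCard i (univ : Finset (Fin n)) := by
    intro A hA
    rw [mem_biUnion]
    refine ⟨A.card, by rw [mem_range]; have := (mem_filter.1 hA).2; omega, ?_⟩
    rw [mem_powersetCard]
    exact ⟨subset_univ _, rfl⟩
  have h2 := (Finset.card_le_card h1).trans Finset.card_biUnion_le
  have h3 : ∑ i ∈ range 6, (powersetCard i (univ : Finset (Fin n))).card ≤
      ∑ _i ∈ range 6, (n + 1) ^ 5 := by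
    refine Finset.sum_le_sum fun i hi => ?_
    rw [card_powersetCard, card_univ, Fintype.card_fin]
    calc n.choose i ≤ n ^ i := Nat.choose_le_pow n i
      _ ≤ (n + 1) ^ i := Nat.pow_le_pow_left (by omega) i
      _ ≤ (n + 1) ^ 5 := Nat.pow_le_pow_right (by omega) (by have := mem_range.1 hi; omega)
  rw [sum_const, card_range, smul_eq_mul] at h3
  exact_mod_cast h2.trans h3

theorem good_mono {ε δ : ℝ} (h : δ ≤ ε) {G : SimpleGraph V} (hG : Good δ G) : Good ε G := by
  intro A B hAB hk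
  refine le_trans ?_ (hG A B hAB hk)
  refine mul_le_mul_of_nonneg_right ?_ (Nat.cast_nonneg _)
  linarith

theorem card_not_good {ε : ℝ} (hε : 0 < ε) (hε1 : ε ≤ 1) (n : ℕ) :
    ((univ.filter fun G : SimpleGraph (Fin n) => ¬ Good ε G).card : ℝ) ≤
      (6 * ((n : ℝ) + 1) ^ 5) ^ 2 * (2 ^ n.choose 2 * Real.exp (5 - ε ^ 2 / 2 * n)) := by
  set T := (univ.filter fun A : Finset (Fin n) => A.card ≤ 5) with hT
  have h1 : (univ.filter fun G : SimpleGraph (Fin n) => ¬ Good ε G) ⊆
      ((T ×ˢ T).filter fun P => Disjoint P.1 P.2 ∧ P.1.card + P.2.card ≤ 5).biUnion fun P =>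
        univ.filter fun G : SimpleGraph (Fin n) =>
          (cnt G P.1 P.2 : ℝ) < ((1 / 2 : ℝ) ^ (P.1.card + P.2.card) - ε) *
            Fintype.card (Fin n) := by
    intro G hG
    have hG' := (mem_filter.1 hG).2
    unfold Good at hG'
    push Not at hG'
    obtain ⟨A, B, hAB, hk, hlt⟩ := hG'
    rw [mem_biUnion]
    refine ⟨(A, B), ?_, ?_⟩
    · rw [mem_filter, mem_product]
      refine ⟨⟨?_, ?_⟩, hAB, hk⟩
      · exact mem_filter.2 ⟨mem_univ _, by show A.card ≤ 5; omega⟩
      · exact mem_filter.2 ⟨mem_univ _, by show B.card ≤ 5; omega⟩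
    · exact mem_filter.2 ⟨mem_univ _, hlt⟩
  have h2 := (Finset.card_le_card h1).trans Finset.card_biUnion_le
  have h3 : ((univ.filter fun G : SimpleGraph (Fin n) => ¬ Good ε G).card : ℝ) ≤
      ∑ P ∈ (T ×ˢ T).filter fun P => Disjoint P.1 P.2 ∧ P.1.card + P.2.card ≤ 5,
        ((univ.filter fun G : SimpleGraph (Fin n) =>
          (cnt G P.1 P.2 : ℝ) < ((1 / 2 : ℝ) ^ (P.1.card + P.2.card) - ε) *
            Fintype.card (Fin n)).card : ℝ) := by
    exact_mod_cast h2
  have hN : (Fintype.card (SimpleGraph (Fin n)) : ℝ) = 2 ^ n.choose 2 := by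
    rw [card_graph, Fintype.card_fin]
    push_cast
    rfl
  have hpos : (0 : ℝ) ≤ 2 ^ n.choose 2 * Real.exp (5 - ε ^ 2 / 2 * n) := by positivity
  refine h3.trans ?_
  calc ∑ P ∈ (T ×ˢ T).filter fun P => Disjoint P.1 P.2 ∧ P.1.card + P.2.card ≤ 5,
        ((univ.filter fun G : SimpleGraph (Fin n) =>
          (cnt G P.1 P.2 : ℝ) < ((1 / 2 : ℝ) ^ (P.1.card + P.2.card) - ε) *
            Fintype.card (Fin n)).card : ℝ)
      ≤ ∑ _P ∈ (T ×ˢ T).filter fun P => Disjoint P.1 P.2 ∧ P.1.card + P.2.card ≤ 5,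
        (2 ^ n.choose 2 * Real.exp (5 - ε ^ 2 / 2 * n)) := by
        refine Finset.sum_le_sum fun P hP => ?_
        have hP' := (mem_filter.1 hP).2
        have := card_bad (V := Fin n) hε hε1 hP'.1 hP'.2
        rw [hN, Fintype.card_fin] at this
        rw [Fintype.card_fin]
        exact this
    _ = (((T ×ˢ T).filter fun P => Disjoint P.1 P.2 ∧ P.1.card + P.2.card ≤ 5).card : ℝ) *
        (2 ^ n.choose 2 * Real.exp (5 - ε ^ 2 / 2 * n)) := by rw [sum_const, nsmul_eq_mul]
    _ ≤ (6 * ((n : ℝ) + 1) ^ 5) ^ 2 * (2 ^ n.choose 2 * Real.exp (5 - ε ^ 2 / 2 * n)) := by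
        refine mul_le_mul_of_nonneg_right ?_ hpos
        have h4 : (((T ×ˢ T).filter fun P => Disjoint P.1 P.2 ∧ P.1.card + P.2.card ≤ 5).card : ℝ)
            ≤ ((T ×ˢ T).card : ℝ) := by exact_mod_cast Finset.card_filter_le _ _
        refine h4.trans ?_
        rw [card_product]
        push_cast
        have h5 := card_small n
        rw [← hT] at h5
        have h6 : (0 : ℝ) ≤ T.card := Nat.cast_nonneg _
        nlinarith

theorem tendsto_err {ε : ℝ} (hε : 0 < ε) :
    Filter.Tendsto (fun n : ℕ => (6 * ((n : ℝ) + 1) ^ 5) ^ 2 * Real.exp (5 - ε ^ 2 / 2 * n))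
      Filter.atTop (nhds 0) := by
  have hr : |Real.exp (-(ε ^ 2 / 2))| < 1 := by
    rw [abs_of_pos (Real.exp_pos _)]
    have h0 : 0 < ε ^ 2 := by positivity
    have := Real.exp_lt_exp.2 (show -(ε ^ 2 / 2) < 0 by linarith)
    rwa [Real.exp_zero] at this
  have h1 := tendsto_pow_const_mul_const_pow_of_abs_lt_one 10 hr
  have h2 := h1.comp (Filter.tendsto_add_atTop_nat 1)
  have h3 := h2.const_mul (36 * Real.exp 5 * Real.exp (ε ^ 2 / 2))
  rw [mul_zero] at h3
  refine h3.congr fun n => ?_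
  simp only [Function.comp]
  have e1 : Real.exp (-(ε ^ 2 / 2)) ^ (n + 1) = Real.exp (-(ε ^ 2 / 2) * (n + 1)) := by
    rw [← Real.exp_nat_mul]
    congr 1
    push_cast
    ring
  rw [e1]
  have e2 : Real.exp (5 - ε ^ 2 / 2 * n) =
      Real.exp 5 * Real.exp (ε ^ 2 / 2) * Real.exp (-(ε ^ 2 / 2) * (n + 1)) := by
    rw [← Real.exp_add, ← Real.exp_add]
    congr 1
    ring
  rw [e2]
  push_cast
  ring

end count

open scoped Classical in
/-- Almost all graphs are good. -/
theorem main : S_Prob := by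
  intro ε hε
  set δ : ℝ := min ε 1 with hδ
  have hδ0 : 0 < δ := lt_min hε one_pos
  have hδ1 : δ ≤ 1 := min_le_right _ _
  have hδε : δ ≤ ε := min_le_left _ _
  have hN : ∀ n : ℕ, (Fintype.card (SimpleGraph (Fin n)) : ℝ) = 2 ^ n.choose 2 := by
    intro n
    rw [card_graph, Fintype.card_fin]
    push_cast
    rfl
  have hcard : ∀ n : ℕ, (Nat.card {G : SimpleGraph (Fin n) // Good ε G} : ℝ) =
      ((univ.filter fun G : SimpleGraph (Fin n) => Good ε G).card : ℝ) := by
    intro n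
    rw [Nat.card_eq_fintype_card, Fintype.card_subtype]
  have hlow : ∀ n : ℕ, 1 - (6 * ((n : ℝ) + 1) ^ 5) ^ 2 * Real.exp (5 - δ ^ 2 / 2 * n) ≤
      (Nat.card {G : SimpleGraph (Fin n) // Good ε G} : ℝ) / (2 : ℝ) ^ (n.choose 2) := by
    intro n
    have hp : (0 : ℝ) < (2 : ℝ) ^ (n.choose 2) := by positivity
    rw [le_div_iff₀ hp, hcard]
    have h1 := card_not_good hδ0 hδ1 n
    have h2 : ((univ.filter fun G : SimpleGraph (Fin n) => Good δ G).card : ℝ) +
        ((univ.filter fun G : SimpleGraph (Fin n) => ¬ Good δ G).card : ℝ) =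
        2 ^ n.choose 2 := by
      rw [← hN n, ← Finset.card_univ]
      exact_mod_cast Finset.card_filter_add_card_filter_not (s := univ)
        (fun G : SimpleGraph (Fin n) => Good δ G)
    have h3 : ((univ.filter fun G : SimpleGraph (Fin n) => Good δ G).card : ℝ) ≤
        ((univ.filter fun G : SimpleGraph (Fin n) => Good ε G).card : ℝ) := by
      have : (univ.filter fun G : SimpleGraph (Fin n) => Good δ G) ⊆
          (univ.filter fun G : SimpleGraph (Fin n) => Good ε G) := by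
        intro G hG
        exact mem_filter.2 ⟨mem_univ _, good_mono hδε (mem_filter.1 hG).2⟩
      exact_mod_cast Finset.card_le_card this
    nlinarith
  have hup : ∀ n : ℕ, (Nat.card {G : SimpleGraph (Fin n) // Good ε G} : ℝ) /
      (2 : ℝ) ^ (n.choose 2) ≤ 1 := by
    intro n
    have hp : (0 : ℝ) < (2 : ℝ) ^ (n.choose 2) := by positivity
    rw [div_le_one hp, hcard, ← hN n]
    exact_mod_cast Finset.card_le_univ _
  have ht := (tendsto_err hδ0).const_sub 1
  rw [sub_zero] at ht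
  exact tendsto_of_tendsto_of_tendsto_of_le_of_le ht tendsto_const_nhds hlow hup

end Pool.Agent.H58.EP
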